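import Pool.Agent.Y290.NE.EST2
import Pool.Agent.Y5.F.Stm

/-!
`S_EST4`: the kernels satisfy the hypotheses of the well-posedness theorem
(adapted from `Pool/Agent/Y290/NE/EST2.lean`).
-/

open Set Filter Topology

set_option autoImplicit false

namespace Pool.Agent.Y421.NF

open Pool.Agent.Y5.D Pool.Agent.Y5.E Pool.Agent.Y5.F Pool.Agent.Y290.NE

section

variable {J : Type} {g : J → ℕ} {lam Λ M : ℝ} {L C C' ℓ : ℕ → ℝ} {B B' : ℕ → ℕ → ℝ}
  {c : Ix J → Ix J → Ix J → ℝ}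

lemma row_le (hK : Ker g Λ M L C B c) (hS : Sq lam Λ M L C' ℓ B') (hL : ∀ n, 0 < L n)
    {m p : ℕ} (q : ℕ) {i a : Ix J} (hi : gr g i = m) (ha : gr g a = p) :
    √(∑ b ∈ GG hK.fin q, c i a b ^ 2) ≤ wg Λ M L m p q := by
  classical
  have h := blk_le hK m p q (fun j => if j = i then 1 else 0) (fun j => if j = a then 1 else 0)
    (fun b => c i a b)
  have e1 : ∀ (i : Ix J) (m : ℕ), gr g i = m → zn hK.fin (fun j => if j = i then 1 else 0) m = 1 := by
    intro i m hi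
    unfold zn
    have : ∑ j ∈ GG hK.fin m, (if j = i then (1 : ℝ) else 0) ^ 2 = 1 := by
      rw [Finset.sum_eq_single i]
      · simp
      · intro b _ hb; simp [hb]
      · intro hh; exact absurd (mem_GG.2 hi) hh
    rw [this]
    exact Real.sqrt_one
  rw [e1 i m hi, e1 a p ha] at h
  have e2 : ∑ j ∈ GG hK.fin m, ∑ a' ∈ GG hK.fin p, ∑ b ∈ GG hK.fin q,
      c j a' b * (if j = i then 1 else 0) * (if a' = a then 1 else 0) * c i a b =
      ∑ b ∈ GG hK.fin q, c i a b ^ 2 := by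
    rw [Finset.sum_eq_single i]
    · rw [Finset.sum_eq_single a]
      · apply Finset.sum_congr rfl
        intro b _
        simp
        ring
      · intro b _ hb; simp [hb]
      · intro hh; exact absurd (mem_GG.2 ha) hh
    · intro b _ hb; simp [hb]
    · intro hh; exact absurd (mem_GG.2 hi) hh
  rw [e2, abs_of_nonneg (Finset.sum_nonneg fun _ _ => sq_nonneg _)] at h
  apply le_of_sq_le (Real.sqrt_nonneg _) (wg_nonneg hS hL m p q)
  rw [Real.sq_sqrt (Finset.sum_nonneg fun _ _ => sq_nonneg _)]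
  have : zn hK.fin (fun b => c i a b) q = √(∑ b ∈ GG hK.fin q, c i a b ^ 2) := rfl
  rw [this] at h
  linarith

lemma blN_le (hK : Ker g Λ M L C B c) (hS : Sq lam Λ M L C' ℓ B') (z y : Ix J → ℝ) (N m : ℕ) :
    √(∑ i ∈ GG hK.fin m, blN hK.fin c z y N i ^ 2) ≤
      ∑ p ∈ Finset.range N, ∑ q ∈ Finset.range N,
        wg Λ M L m p q * zn hK.fin z p * zn hK.fin y q := by
  have hL := L_pos hS
  set α : Ix J → ℝ := blN hK.fin c z y N with hα
  apply le_of_sq_le (Real.sqrt_nonneg _)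
  · exact Finset.sum_nonneg fun p _ => Finset.sum_nonneg fun q _ =>
      mul_nonneg (mul_nonneg (wg_nonneg hS hL m p q) (zn_nonneg _ _ _)) (zn_nonneg _ _ _)
  rw [Real.sq_sqrt (Finset.sum_nonneg fun _ _ => sq_nonneg _)]
  have h1 : ∑ i ∈ GG hK.fin m, α i ^ 2 = ∑ p ∈ Finset.range N, ∑ q ∈ Finset.range N,
      ∑ i ∈ GG hK.fin m, ∑ a ∈ GG hK.fin p, ∑ b ∈ GG hK.fin q, c i a b * α i * z a * y b := by
    have h2 : ∀ i, α i ^ 2 = ∑ p ∈ Finset.range N, ∑ q ∈ Finset.range N,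
        ∑ a ∈ GG hK.fin p, ∑ b ∈ GG hK.fin q, c i a b * α i * z a * y b := by
      intro i
      have h3 : α i = ∑ p ∈ Finset.range N, ∑ q ∈ Finset.range N,
          ∑ a ∈ GG hK.fin p, ∑ b ∈ GG hK.fin q, c i a b * z a * y b := by
        rw [hα]
        unfold blN
        exact sum_BB2 hK.fin (fun a b => c i a b * z a * y b) N
      rw [pow_two]
      nth_rewrite 2 [h3]
      simp_rw [Finset.mul_sum]
      refine Finset.sum_congr rfl fun p _ => Finset.sum_congr rfl fun q _ =>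
        Finset.sum_congr rfl fun a _ => Finset.sum_congr rfl fun b _ => ?_
      ring
    simp_rw [h2]
    rw [Finset.sum_comm]
    refine Finset.sum_congr rfl fun p _ => ?_
    rw [Finset.sum_comm]
  rw [h1]
  have h4 : √(∑ p ∈ Finset.range N, ∑ q ∈ Finset.range N,
      ∑ i ∈ GG hK.fin m, ∑ a ∈ GG hK.fin p, ∑ b ∈ GG hK.fin q, c i a b * α i * z a * y b) =
      zn hK.fin α m := by
    rw [← h1]; rfl
  rw [h4, Finset.sum_mul]
  refine Finset.sum_le_sum fun p _ => ?_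
  rw [Finset.sum_mul]
  refine Finset.sum_le_sum fun q _ => ?_
  refine (le_abs_self _).trans ((blk_le hK m p q α z y).trans (le_of_eq ?_))
  ring

lemma absblk (hK : Ker g Λ M L C B c) (hS : Sq lam Λ M L C' ℓ B') (z y : Ix J → ℝ) {m : ℕ}
    (p q : ℕ) {i : Ix J} (hi : gr g i = m) :
    ∑ a ∈ GG hK.fin p, ∑ b ∈ GG hK.fin q, |c i a b * z a * y b| ≤
      wg Λ M L m p q * (√((GG hK.fin p).card : ℝ) * zn hK.fin z p) * zn hK.fin y q := by
  have hL := L_pos hS
  have hw := wg_nonneg hS hL m p q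
  have h1 : ∀ a ∈ GG hK.fin p, ∑ b ∈ GG hK.fin q, |c i a b * z a * y b| ≤
      |z a| * (wg Λ M L m p q * zn hK.fin y q) := by
    intro a ha
    rw [mem_GG] at ha
    have h2 : ∑ b ∈ GG hK.fin q, |c i a b * z a * y b| =
        |z a| * ∑ b ∈ GG hK.fin q, |c i a b| * |y b| := by
      rw [Finset.mul_sum]
      refine Finset.sum_congr rfl fun b _ => ?_
      rw [abs_mul, abs_mul]; ring
    rw [h2]
    apply mul_le_mul_of_nonneg_left _ (abs_nonneg _)
    refine (Real.sum_mul_le_sqrt_mul_sqrt _ _ _).trans ?_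
    simp_rw [sq_abs]
    exact mul_le_mul_of_nonneg_right (row_le hK hS hL q hi ha) (Real.sqrt_nonneg _)
  refine (Finset.sum_le_sum h1).trans ?_
  rw [← Finset.sum_mul]
  have h3 : ∑ a ∈ GG hK.fin p, |z a| ≤ √((GG hK.fin p).card : ℝ) * zn hK.fin z p := by
    have h4 := Real.sum_mul_le_sqrt_mul_sqrt (GG hK.fin p) (fun _ => (1 : ℝ)) (fun a => |z a|)
    simp only [one_mul, one_pow, sq_abs, Finset.sum_const, nsmul_eq_mul, mul_one] at h4
    exact h4
  calc _ ≤ (√((GG hK.fin p).card : ℝ) * zn hK.fin z p) * (wg Λ M L m p q * zn hK.fin y q) :=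
        mul_le_mul_of_nonneg_right h3 (mul_nonneg hw (zn_nonneg _ _ _))
    _ = _ := by ring

lemma summ (hK : Ker g Λ M L C B c) (hS : Sq lam Λ M L C' ℓ B') (z y : Ix J → ℝ)
    (hz : Sk (rI L g) 1 z) (hy : Sk (rI L g) 1 y) (i : Ix J) :
    Summable (fun p : Ix J × Ix J => c i p.1 p.2 * z p.1 * y p.2) := by
  obtain ⟨D, hD⟩ := hK.card
  have hL := (L_geo hS).1
  apply Summable.of_abs
  have hD1 : ∀ p, √((GG hK.fin p).card : ℝ) ≤ √(1 + |D|) * L p := by
    intro p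
    have h1 : ((GG hK.fin p).card : ℝ) ≤ (1 + |D|) * L p ^ 2 := by
      have h2 := card_GG hK.fin p
      have h3 := hD p
      have h4 : D * L p ^ 2 ≤ |D| * L p ^ 2 :=
        mul_le_mul_of_nonneg_right (le_abs_self D) (sq_nonneg _)
      have h5 : 1 ≤ L p ^ 2 := one_le_pow₀ (hL p)
      linarith
    calc √((GG hK.fin p).card : ℝ) ≤ √((1 + |D|) * L p ^ 2) := Real.sqrt_le_sqrt h1
      _ = √(1 + |D|) * L p := by
        rw [Real.sqrt_mul (by positivity), Real.sqrt_sq (by linarith [hL p])]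
  set m := gr g i with hm
  have hM := hS.M_one
  have hΛ := hS.Λ_ge
  have hLm := L_pos hS m
  apply summable_of_sum_le (c := M * L m * Λ ^ m * 2 ^ (m + 1) *
    (4 * √((1 + |D|) * nk (rI L g) 1 z) * √(∑' a, y a ^ 2))) (fun _ => abs_nonneg _)
  intro u
  obtain ⟨N, hN⟩ := exists_BB2 hK.fin u
  refine (Finset.sum_le_sum_of_subset_of_nonneg hN (fun _ _ _ => abs_nonneg _)).trans ?_
  rw [sum_BB2 hK.fin (fun a b => |c i a b * z a * y b|)]
  calc _ ≤ ∑ p ∈ Finset.range N, ∑ q ∈ Finset.range N, wg Λ M L m p q *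
        (√(1 + |D|) * (L p ^ 1 * zn hK.fin z p)) * zn hK.fin y q := by
        refine Finset.sum_le_sum fun p _ => Finset.sum_le_sum fun q _ => ?_
        refine (absblk hK hS z y p q hm.symm).trans ?_
        apply mul_le_mul_of_nonneg_right _ (zn_nonneg _ _ _)
        apply mul_le_mul_of_nonneg_left _ (wg_nonneg hS (L_pos hS) _ _ _)
        have := mul_le_mul_of_nonneg_right (hD1 p) (zn_nonneg hK.fin z p)
        rw [pow_one]
        linarith
    _ ≤ M * L m * Λ ^ m * 2 ^ (m + 1) * (4 *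
        √(∑ p ∈ Finset.range N, (√(1 + |D|) * (L p ^ 1 * zn hK.fin z p)) ^ 2) *
        √(∑ q ∈ Finset.range N, zn hK.fin y q ^ 2)) := by
        apply wg_sum hS m N
        · intro p
          have := L_pos hS p
          have := zn_nonneg hK.fin z p
          positivity
        · exact zn_nonneg hK.fin y
    _ ≤ _ := by
        apply mul_le_mul_of_nonneg_left
        · apply mul_le_mul
          · apply mul_le_mul_of_nonneg_left _ (by norm_num)
            apply Real.sqrt_le_sqrt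
            simp_rw [mul_pow (√(1 + |D|)), Real.sq_sqrt (show (0 : ℝ) ≤ 1 + |D| by positivity)]
            rw [← Finset.mul_sum]
            exact mul_le_mul_of_nonneg_left (nk_le hK.fin 1 z hz N) (by positivity)
          · exact Real.sqrt_le_sqrt (zn_zero_le hK.fin hL hy N)
          · exact Real.sqrt_nonneg _
          · positivity
        · positivity

lemma tends (hK : Ker g Λ M L C B c) (hS : Sq lam Λ M L C' ℓ B') (z y : Ix J → ℝ)
    (hz : Sk (rI L g) 1 z) (hy : Sk (rI L g) 1 y) (i : Ix J) :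
    Tendsto (fun N => blN hK.fin c z y N i) atTop (𝓝 (bl c z y i)) := by
  have h1 : Tendsto (fun s : Finset (Ix J × Ix J) => ∑ p ∈ s, c i p.1 p.2 * z p.1 * y p.2) atTop
      (𝓝 (bl c z y i)) := (summ hK hS z y hz hy i).hasSum
  apply h1.comp (g := fun s : Finset (Ix J × Ix J) => ∑ p ∈ s, c i p.1 p.2 * z p.1 * y p.2)
    (f := fun N => BB hK.fin N ×ˢ BB hK.fin N)
  apply tendsto_atTop_finset_of_monotone
  · intro a b hab x hx
    rw [Finset.mem_product, mem_BB, mem_BB] at hx ⊢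
    omega
  · intro x
    obtain ⟨N, hN⟩ := exists_BB2 hK.fin {x}
    exact ⟨N, hN (Finset.mem_singleton_self x)⟩

lemma loc_est (hK : Ker g Λ M L C B c) (hS : Sq lam Λ M L C' ℓ B') (z y : Ix J → ℝ)
    (hz : Sk (rI L g) 1 z) (hy : Sk (rI L g) 1 y) (i : Ix J) :
    |bl c z y i| ≤ M * L (gr g i) * Λ ^ (gr g i) * 2 ^ (gr g i + 1) * 4 * √(∑' a, z a ^ 2) *
      √(∑' a, y a ^ 2) := by
  have hL := (L_geo hS).1
  have hM := hS.M_one
  have hΛ := hS.Λ_ge
  set m := gr g i with hm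
  have hLm := L_pos hS m
  apply le_of_tendsto' ((tends hK hS z y hz hy i).abs)
  intro N
  have h1 : |blN hK.fin c z y N i| ≤ √(∑ i ∈ GG hK.fin m, blN hK.fin c z y N i ^ 2) := by
    apply Real.abs_le_sqrt
    exact Finset.single_le_sum (f := fun i => blN hK.fin c z y N i ^ 2)
      (fun _ _ => sq_nonneg _) (mem_GG.2 hm.symm)
  refine h1.trans ((blN_le hK hS z y N m).trans ?_)
  refine (wg_sum hS m N _ _ (zn_nonneg hK.fin z) (zn_nonneg hK.fin y)).trans ?_
  calc _ ≤ M * L m * Λ ^ m * 2 ^ (m + 1) * (4 * √(∑' a, z a ^ 2) * √(∑' a, y a ^ 2)) := by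
        apply mul_le_mul_of_nonneg_left
        · apply mul_le_mul
          · apply mul_le_mul_of_nonneg_left _ (by norm_num)
            exact Real.sqrt_le_sqrt (zn_zero_le hK.fin hL hz N)
          · exact Real.sqrt_le_sqrt (zn_zero_le hK.fin hL hy N)
          · exact Real.sqrt_nonneg _
          · positivity
        · positivity
    _ = _ := by ring

lemma est_N (hK : Ker g Λ M L C B c) (hS : Sq lam Λ M L C' ℓ B') (k : ℕ) (z y : Ix J → ℝ)
    (hz : Sk (rI L g) (k + 1) z) (hy : Sk (rI L g) (k + 1) y)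
    (hz1 : Sk (rI L g) 1 z) (hy1 : Sk (rI L g) 1 y) (N N' : ℕ) :
    ∑ m ∈ Finset.range N', ∑ i ∈ GG hK.fin m,
      (L m ^ (k + 1) * (Λ ^ m)⁻¹) ^ 2 * blN hK.fin c z y N i ^ 2 ≤
      1152 * (2 * M * lam ^ (k + 1)) ^ 2 * (nk (rI L g) 1 z * nk (rI L g) (k + 1) y +
        nk (rI L g) (k + 1) z * nk (rI L g) 1 y) := by
  have hM := hS.M_one
  have hΛ := hS.Λ_ge
  have hlam := lam_two hS
  have hL := L_pos hS
  have hZ := zn_nonneg hK.fin z
  have hY := zn_nonneg hK.fin y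
  have e1 : ∀ m, ∑ i ∈ GG hK.fin m,
      (L m ^ (k + 1) * (Λ ^ m)⁻¹) ^ 2 * blN hK.fin c z y N i ^ 2 ≤
      (∑ p ∈ Finset.range N, ∑ q ∈ Finset.range N, L m ^ (k + 1) * (Λ ^ m)⁻¹ *
        (wg Λ M L m p q * zn hK.fin z p * zn hK.fin y q)) ^ 2 := by
    intro m
    rw [← Finset.mul_sum]
    have h1 := blN_le hK hS z y N m
    have h2 : ∑ i ∈ GG hK.fin m, blN hK.fin c z y N i ^ 2 ≤
        (∑ p ∈ Finset.range N, ∑ q ∈ Finset.range N,
        wg Λ M L m p q * zn hK.fin z p * zn hK.fin y q) ^ 2 := by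
      rw [← Real.sq_sqrt (Finset.sum_nonneg fun i (_ : i ∈ GG hK.fin m) =>
        sq_nonneg (blN hK.fin c z y N i))]
      exact pow_le_pow_left₀ (Real.sqrt_nonneg _) h1 2
    calc _ ≤ (L m ^ (k + 1) * (Λ ^ m)⁻¹) ^ 2 * (∑ p ∈ Finset.range N, ∑ q ∈ Finset.range N,
        wg Λ M L m p q * zn hK.fin z p * zn hK.fin y q) ^ 2 :=
          mul_le_mul_of_nonneg_left h2 (sq_nonneg _)
      _ = (L m ^ (k + 1) * (Λ ^ m)⁻¹ * (∑ p ∈ Finset.range N, ∑ q ∈ Finset.range N,
        wg Λ M L m p q * zn hK.fin z p * zn hK.fin y q)) ^ 2 := by rw [← mul_pow]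
      _ = _ := by
        congr 1
        rw [Finset.mul_sum]
        refine Finset.sum_congr rfl fun p _ => ?_
        rw [Finset.mul_sum]
  refine (Finset.sum_le_sum fun m _ => e1 m).trans ?_
  have h := discr (w := fun m p q => L m ^ (k + 1) * (Λ ^ m)⁻¹ *
        (wg Λ M L m p q * zn hK.fin z p * zn hK.fin y q))
    (Z1 := fun p => L p ^ 1 * zn hK.fin z p) (Z2 := fun p => L p ^ (k + 1) * zn hK.fin z p)
    (Y1 := fun p => L p ^ 1 * zn hK.fin y p) (Y2 := fun p => L p ^ (k + 1) * zn hK.fin y p)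
    (a1 := √(nk (rI L g) 1 z)) (a2 := nk (rI L g) (k + 1) z)
    (b1 := √(nk (rI L g) 1 y)) (b2 := nk (rI L g) (k + 1) y)
    (K := 2 * M * lam ^ (k + 1))
    (fun p => mul_nonneg (pow_nonneg (hL p).le _) (hZ p))
    (fun p => mul_nonneg (pow_nonneg (hL p).le _) (hZ p))
    (fun p => mul_nonneg (pow_nonneg (hL p).le _) (hY p))
    (fun p => mul_nonneg (pow_nonneg (hL p).le _) (hY p))
    (by positivity) (Real.sqrt_nonneg _) (Real.sqrt_nonneg _) N N'
    (by rw [Real.sq_sqrt (nk_nonneg _ _ _)]; exact nk_le hK.fin 1 z hz1 N)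
    (nk_le hK.fin (k + 1) z hz N)
    (by rw [Real.sq_sqrt (nk_nonneg _ _ _)]; exact nk_le hK.fin 1 y hy1 N)
    (nk_le hK.fin (k + 1) y hy N)
    (by
      intro m p q
      have h1 := wg_w hS k m p q
      have hΛm : 0 < Λ ^ m := pow_pos (by linarith) _
      have h2 : 0 ≤ zn hK.fin z p * zn hK.fin y q := mul_nonneg (hZ p) (hY q)
      calc L m ^ (k + 1) * (Λ ^ m)⁻¹ * (wg Λ M L m p q * zn hK.fin z p * zn hK.fin y q)
          = (L m ^ (k + 1) * wg Λ M L m p q) *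
            ((Λ ^ m)⁻¹ * (zn hK.fin z p * zn hK.fin y q)) := by ring
        _ ≤ (2 * M * lam ^ (k + 1) * Λ ^ m *
          ((1 / 2) ^ p * hh m q * (L p * L q ^ (k + 1)) +
          (1 / 2) ^ q * hh m p * (L p ^ (k + 1) * L q) +
          hh m p * hh m q * (L p ^ (k + 1) * L q))) *
            ((Λ ^ m)⁻¹ * (zn hK.fin z p * zn hK.fin y q)) :=
          mul_le_mul_of_nonneg_right h1 (mul_nonneg (inv_nonneg.2 hΛm.le) h2)
        _ = 2 * M * lam ^ (k + 1) * ((1 / 2) ^ p * (L p ^ 1 * zn hK.fin z p) *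
              (hh m q * (L q ^ (k + 1) * zn hK.fin y q)) +
            hh m p * (L p ^ (k + 1) * zn hK.fin z p) * ((1 / 2) ^ q * (L q ^ 1 * zn hK.fin y q)) +
            hh m p * (L p ^ (k + 1) * zn hK.fin z p) * (hh m q * (L q ^ 1 * zn hK.fin y q))) *
              (Λ ^ m * (Λ ^ m)⁻¹) := by ring
        _ = _ := by rw [mul_inv_cancel₀ hΛm.ne', mul_one])
    (by
      intro m p q
      have hΛm : 0 < Λ ^ m := pow_pos (by linarith) _
      exact mul_nonneg (mul_nonneg (pow_nonneg (hL m).le _) (inv_nonneg.2 hΛm.le))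
        (mul_nonneg (mul_nonneg (wg_nonneg hS hL m p q) (hZ p)) (hY q)))
  rw [Real.sq_sqrt (nk_nonneg _ _ _), Real.sq_sqrt (nk_nonneg _ _ _)] at h
  exact h

/-- the conditions which do not involve the kernel -/
lemma aux_Sq {κ μ : ℝ} (h : Sq4 κ μ lam Λ M L C ℓ B) :
    Sq lam Λ M L (fun _ => Real.exp (-(300 / 10000 * lam))) (fun n => κ * ℓ n)
      (fun _ _ => 1) := by
  have hκ0 := h.κ0
  have hκ1 := h.κ1
  have hμ := h.μ_big
  have h30 : (0 : ℝ) < 10 ^ 30 := by positivity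
  have hμ0 : 0 < μ := lt_of_lt_of_le h30 hμ
  have hlam : μ ≤ lam := by
    have e := h.μ_eq
    have hl0 : 0 < lam := by
      by_contra hc
      push Not at hc
      have : κ * lam ≤ 0 := mul_nonpos_of_nonneg_of_nonpos hκ0.le hc
      linarith
    have := mul_le_mul_of_nonneg_right hκ1 hl0.le
    linarith
  have hlam0 : 0 < lam := by linarith
  have hL0 := h.L0
  have hL : ∀ n, 1 ≤ L n := by
    intro n
    induction n with
    | zero => exact hL0
    | succ n ih =>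
      rw [h.L_succ]
      have : (1 : ℝ) ≤ lam := by
        have h1 : (1 : ℝ) ≤ 10 ^ 30 := by norm_num
        linarith
      nlinarith
  refine ⟨by linarith, hL0, h.L_succ, h.Λ_ge, h.Λ_sq.trans hlam, h.M_one, ?_, ?_, ?_, ?_, ?_,
    ?_, ?_, ?_, ?_⟩
  · have h1 := h.exp_big
    have h2 : Real.exp (μ / 10 ^ 6) ≤ Real.exp (lam / 10 ^ 6) := by
      apply Real.exp_le_exp.2
      exact div_le_div_of_nonneg_right hlam (by positivity)
    refine le_trans ?_ (h1.trans h2)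
    have hM := h.M_one
    have hM4 : (0 : ℝ) ≤ 10 ^ 6 * M ^ 4 := by positivity
    apply pow_le_pow_left₀ hM4
    have h3 : (1 : ℝ) ≤ lam ^ 3 := by
      apply one_le_pow₀
      have h1 : (1 : ℝ) ≤ 10 ^ 30 := by norm_num
      linarith
    calc (10 : ℝ) ^ 6 * M ^ 4 = 10 ^ 6 * M ^ 4 * 1 := by ring
      _ ≤ _ := mul_le_mul_of_nonneg_left h3 hM4
  · intro n
    apply Real.exp_le_exp.2
    linarith
  · intro n
    apply Real.exp_le_exp.2
    linarith
  · intro i n _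
    norm_num
  · intro i n _
    norm_num
  · intro n
    exact mul_nonneg hκ0.le (h.ℓ_nonneg n)
  · have h1 := h.ℓ_zero
    rw [h.μ_eq] at h1
    calc 10 ^ 6 * (κ * ℓ 0 * lam) = 10 ^ 6 * (ℓ 0 * (κ * lam)) := by ring
      _ ≤ _ := h1
  · intro n
    have h1 := h.ℓ_succ n
    have h2 := h.ℓ_nonneg (n + 1)
    have h3 : κ ^ n ≤ 1 := pow_le_one₀ hκ0.le hκ1
    have h4 : 0 ≤ L n * (9 / 1000) ^ n := by
      have := hL n
      positivity
    calc 10 ^ 6 * (κ * ℓ (n + 1)) = κ * (10 ^ 6 * ℓ (n + 1)) := by ring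
      _ ≤ 1 * (10 ^ 6 * ℓ (n + 1)) := mul_le_mul_of_nonneg_right hκ1 (by positivity)
      _ = 10 ^ 6 * ℓ (n + 1) := one_mul _
      _ ≤ κ ^ n * L n * (9 / 1000) ^ n := h1
      _ = κ ^ n * (L n * (9 / 1000) ^ n) := by ring
      _ ≤ 1 * (L n * (9 / 1000) ^ n) := mul_le_mul_of_nonneg_right h3 h4
      _ = _ := one_mul _
  · obtain ⟨a, ha, hl⟩ := h.ℓ_low
    refine ⟨κ * a, mul_pos hκ0 ha, fun n => ?_⟩
    rw [mul_assoc]
    exact mul_le_mul_of_nonneg_left (hl n) hκ0.le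

lemma d_low4 {κ μ : ℝ} (h : Sq4 κ μ lam Λ M L C ℓ B) :
    ∃ a, 0 < a ∧ ∀ (m : ℕ) (i : Ix J), gr g i = m →
    a * (Λ ^ m) ^ 2 ≤ 1 + dF ℓ (Sd κ μ L) g i := by
  obtain ⟨a, ha, hl⟩ := h.ℓ_low
  have hΛ := h.Λ_ge
  have hκ0 := h.κ0
  have h30 : (0 : ℝ) < 10 ^ 30 := by positivity
  have hμ0 : 0 < μ := lt_of_lt_of_le h30 h.μ_big
  refine ⟨min 1 a, lt_min one_pos ha, ?_⟩
  rintro m (n | j) hi
  · have hi' : n = m := hi
    subst hi'
    have h1 := hl n
    have h2 : (0 : ℝ) ≤ (Λ ^ n) ^ 2 := sq_nonneg _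
    have h3 : min 1 a * (Λ ^ n) ^ 2 ≤ a * (Λ ^ n) ^ 2 :=
      mul_le_mul_of_nonneg_right (min_le_right _ _) h2
    have h4 : dF ℓ (Sd κ μ L) g (Sum.inl n) = ℓ n := rfl
    rw [h4]
    have h5 : Λ ^ (2 * n) = (Λ ^ n) ^ 2 := by rw [← pow_mul, mul_comm]
    rw [h5] at h1
    linarith
  · have hi' : g j = m := hi
    have h4 : dF ℓ (Sd κ μ L) g (Sum.inr j) = Real.exp μ * (κ ^ (g j) * L (g j)) := rfl
    rw [h4, hi']
    have h2 : (0 : ℝ) ≤ (Λ ^ m) ^ 2 := sq_nonneg _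
    have h3 : min 1 a * (Λ ^ m) ^ 2 ≤ 1 * (Λ ^ m) ^ 2 :=
      mul_le_mul_of_nonneg_right (min_le_left _ _) h2
    have h5 : (Λ ^ m) ^ 2 ≤ κ ^ m * L m := by
      have h6 : ∀ n : ℕ, (Λ ^ n) ^ 2 ≤ κ ^ n * L n := by
        intro n
        induction n with
        | zero => simpa using h.L0
        | succ n ih =>
          rw [h.L_succ]
          calc (Λ ^ (n + 1)) ^ 2 = Λ ^ 2 * (Λ ^ n) ^ 2 := by ring
            _ ≤ μ * (κ ^ n * L n) := mul_le_mul h.Λ_sq ih (sq_nonneg _) hμ0.le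
            _ = κ ^ (n + 1) * (lam * L n) := by rw [h.μ_eq]; ring
      exact h6 m
    have h7 : 1 ≤ Real.exp μ := Real.one_le_exp hμ0.le
    nlinarith

end

theorem t_EST4 : S_EST4 := by
  intro J g κ μ lam Λ M L C ℓ B c hK h4
  have hS := aux_Sq h4
  have hM := hS.M_one
  have hΛ := hS.Λ_ge
  have hlam := lam_two hS
  have hL := L_pos hS
  have hL1 := (L_geo hS).1
  have hd0 : ∀ i, 0 ≤ dF ℓ (Sd κ μ L) g i := by
    rintro (n | j)
    · exact h4.ℓ_nonneg n
    · exact mul_nonneg (Real.exp_pos _).le (mul_nonneg (pow_nonneg h4.κ0.le _) (hL _).le)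
  refine ⟨hd0, fun i => hL1 _, ?_, ?_, ?_, ?_⟩
  · -- finiteness
    intro R
    obtain ⟨N, hN⟩ : ∃ N : ℕ, R < 2 ^ N := by
      obtain ⟨N, hN⟩ := pow_unbounded_of_one_lt R (show (1 : ℝ) < 2 by norm_num)
      exact ⟨N, hN⟩
    apply (bfin hK.fin N).subset
    intro i hi
    by_contra hc
    have hc' : N ≤ gr g i := not_lt.1 hc
    have h1 : L N ≤ L (gr g i) := L_mono hS hc'
    have h2 := (L_geo hS).2 0 N
    rw [zero_add] at h2
    have h3 := hS.L0
    have h4 : rI L g i ≤ R := hi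
    unfold rI at h4
    have h5 : (0 : ℝ) < 2 ^ N := by positivity
    nlinarith
  · intro i z y hz hy
    exact summ hK hS z y hz hy i
  · intro i
    exact ⟨_, fun z y hz hy => loc_est hK hS z y hz hy i⟩
  · intro k
    obtain ⟨a, ha, hd⟩ := d_low4 (g := g) h4
    refine ⟨a⁻¹ * (1152 * (2 * M * lam ^ (k + 1)) ^ 2), ?_⟩
    intro z y hz hy
    have hmono : ∀ z : Ix J → ℝ, Sk (rI L g) (k + 1) z → Sk (rI L g) 1 z := by
      intro z hz
      apply Summable.of_nonneg_of_le (fun _ => sq_nonneg _) _ hz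
      intro i
      have h1 : 1 ≤ rI L g i := hL1 _
      have h2 : rI L g i ^ 1 ≤ rI L g i ^ (k + 1) := pow_le_pow_right₀ h1 (by omega)
      rw [mul_pow, mul_pow]
      apply mul_le_mul_of_nonneg_right _ (sq_nonneg _)
      apply pow_le_pow_left₀ (by positivity) h2
    have hz1 := hmono z hz
    have hy1 := hmono y hy
    set R := 1152 * (2 * M * lam ^ (k + 1)) ^ 2 * (nk (rI L g) 1 z * nk (rI L g) (k + 1) y +
        nk (rI L g) (k + 1) z * nk (rI L g) 1 y) with hR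
    have e1 : ∀ N', ∑ m ∈ Finset.range N', ∑ i ∈ GG hK.fin m,
        (L m ^ (k + 1) * (Λ ^ m)⁻¹) ^ 2 * bl c z y i ^ 2 ≤ R := by
      intro N'
      have ht : Tendsto (fun N => ∑ m ∈ Finset.range N', ∑ i ∈ GG hK.fin m,
          (L m ^ (k + 1) * (Λ ^ m)⁻¹) ^ 2 * blN hK.fin c z y N i ^ 2) atTop
          (𝓝 (∑ m ∈ Finset.range N', ∑ i ∈ GG hK.fin m,
          (L m ^ (k + 1) * (Λ ^ m)⁻¹) ^ 2 * bl c z y i ^ 2)) := by
        apply tendsto_finsetSum
        intro m _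
        apply tendsto_finsetSum
        intro i _
        exact ((tends hK hS z y hz1 hy1 i).pow 2).const_mul _
      exact le_of_tendsto' ht fun N => est_N hK hS k z y hz hy hz1 hy1 N N'
    have e2 : ∀ N', ∑ i ∈ BB hK.fin N', (rI L g i ^ (k + 1) * bl c z y i) ^ 2 /
        (1 + dF ℓ (Sd κ μ L) g i) ≤ a⁻¹ * R := by
      intro N'
      rw [sum_BB]
      calc _ ≤ ∑ m ∈ Finset.range N', ∑ i ∈ GG hK.fin m,
            a⁻¹ * ((L m ^ (k + 1) * (Λ ^ m)⁻¹) ^ 2 * bl c z y i ^ 2) := by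
            refine Finset.sum_le_sum fun m _ => Finset.sum_le_sum fun i hi => ?_
            rw [mem_GG] at hi
            have h1 := hd m i hi
            have hΛm : 0 < Λ ^ m := pow_pos (by linarith) _
            have h2 : 0 < a * (Λ ^ m) ^ 2 := by positivity
            unfold rI
            rw [hi]
            calc (L m ^ (k + 1) * bl c z y i) ^ 2 / (1 + dF ℓ (Sd κ μ L) g i)
                ≤ (L m ^ (k + 1) * bl c z y i) ^ 2 / (a * (Λ ^ m) ^ 2) :=
                  div_le_div_of_nonneg_left (sq_nonneg _) h2 h1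
              _ = a⁻¹ * ((L m ^ (k + 1) * (Λ ^ m)⁻¹) ^ 2 * bl c z y i ^ 2) := by
                  field_simp
        _ = a⁻¹ * ∑ m ∈ Finset.range N', ∑ i ∈ GG hK.fin m,
            (L m ^ (k + 1) * (Λ ^ m)⁻¹) ^ 2 * bl c z y i ^ 2 := by
            rw [Finset.mul_sum]
            refine Finset.sum_congr rfl fun m _ => ?_
            rw [Finset.mul_sum]
        _ ≤ _ := mul_le_mul_of_nonneg_left (e1 N') (inv_nonneg.2 ha.le)
    have hpos : ∀ i, 0 ≤ (rI L g i ^ (k + 1) * bl c z y i) ^ 2 /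
        (1 + dF ℓ (Sd κ μ L) g i) := by
      intro i
      have := hd0 i
      positivity
    have e3 : ∀ u : Finset (Ix J), ∑ i ∈ u, (rI L g i ^ (k + 1) * bl c z y i) ^ 2 /
        (1 + dF ℓ (Sd κ μ L) g i) ≤ a⁻¹ * R := by
      intro u
      obtain ⟨N, hN⟩ := exists_BB hK.fin u
      exact (Finset.sum_le_sum_of_subset_of_nonneg hN (fun i _ _ => hpos i)).trans (e2 N)
    have hsum := summable_of_sum_le hpos e3
    refine ⟨hsum, ?_⟩
    refine (Summable.tsum_le_of_sum_le hsum e3).trans (le_of_eq ?_)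
    rw [hR]
    ring

end Pool.Agent.Y421.NF
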